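import Pool.Agent.NNr.R15_1_4_5.D1
import Pool.Agent.NNr.R15_1_4_5.D2

set_option linter.all false
set_option maxRecDepth 1000000
namespace Pool.Agent.NNr.R15_1_4_5

open Pool.Agent.NNe

def rf2_1 : rfCk (nat_lit 61) (nat_lit 3) (nat_lit 61) (nat_lit 9) (nat_lit 9) (nat_lit 0) (nat_lit 1) TL2 CL1 CL2 = true := by decide +kernel
def st2_1_0 : starCk (nat_lit 61) (nat_lit 9) (nat_lit 1) (nat_lit 4) (nat_lit 15) (nat_lit 0) (nat_lit 16) C2_1 = true := by decide +kernel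
def sc2_1 : stCov (nat_lit 1) (nat_lit 0) (Rl.cons (nat_lit 0) (nat_lit 15) Rl.nil) C2_1 = true := by decide +kernel
def wf2_2 : wfC (nat_lit 61) (nat_lit 9) C2_2 = true := by decide +kernel
def rf2_2 : rfCk (nat_lit 61) (nat_lit 3) (nat_lit 61) (nat_lit 9) (nat_lit 9) (nat_lit 0) (nat_lit 2) TL2 CL1 CL2 = true := by decide +kernel
def st2_2_0 : starCk (nat_lit 61) (nat_lit 9) (nat_lit 1) (nat_lit 4) (nat_lit 26) (nat_lit 71) (nat_lit 16) C2_2 = true := by decide +kernel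
def sc2_2 : stCov (nat_lit 1) (nat_lit 71) (Rl.cons (nat_lit 71) (nat_lit 26) Rl.nil) C2_2 = true := by decide +kernel
def wf2_3 : wfC (nat_lit 61) (nat_lit 9) C2_3 = true := by decide +kernel
def rf2_3 : rfCk (nat_lit 61) (nat_lit 3) (nat_lit 61) (nat_lit 9) (nat_lit 9) (nat_lit 0) (nat_lit 3) TL2 CL1 CL2 = true := by decide +kernel
def st2_3_0 : starCk (nat_lit 61) (nat_lit 9) (nat_lit 1) (nat_lit 4) (nat_lit 33) (nat_lit 189) (nat_lit 256) C2_3 = true := by decide +kernel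
def sc2_3 : stCov (nat_lit 2) (nat_lit 189) (Rl.cons (nat_lit 189) (nat_lit 33) Rl.nil) C2_3 = true := by decide +kernel
def wf2_4 : wfC (nat_lit 61) (nat_lit 9) C2_4 = true := by decide +kernel
def rf2_4 : rfCk (nat_lit 61) (nat_lit 3) (nat_lit 61) (nat_lit 9) (nat_lit 9) (nat_lit 0) (nat_lit 4) TL2 CL1 CL2 = true := by decide +kernel
def st2_4_0 : starCk (nat_lit 61) (nat_lit 9) (nat_lit 1) (nat_lit 4) (nat_lit 20) (nat_lit 182) (nat_lit 256) C2_4 = true := by decide +kernel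
def sc2_4 : stCov (nat_lit 2) (nat_lit 182) (Rl.cons (nat_lit 182) (nat_lit 20) Rl.nil) C2_4 = true := by decide +kernel
def wf2_5 : wfC (nat_lit 61) (nat_lit 9) C2_5 = true := by decide +kernel
def rf2_5 : rfCk (nat_lit 61) (nat_lit 3) (nat_lit 61) (nat_lit 9) (nat_lit 9) (nat_lit 0) (nat_lit 5) TL2 CL1 CL2 = true := by decide +kernel
def st2_5_0 : starCk (nat_lit 61) (nat_lit 9) (nat_lit 1) (nat_lit 4) (nat_lit 28) (nat_lit 56) (nat_lit 16) C2_5 = true := by decide +kernel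
def sc2_5 : stCov (nat_lit 1) (nat_lit 56) (Rl.cons (nat_lit 56) (nat_lit 28) Rl.nil) C2_5 = true := by decide +kernel
def wf2_6 : wfC (nat_lit 61) (nat_lit 9) C2_6 = true := by decide +kernel
def rf2_6 : rfCk (nat_lit 61) (nat_lit 3) (nat_lit 61) (nat_lit 9) (nat_lit 9) (nat_lit 0) (nat_lit 6) TL2 CL1 CL2 = true := by decide +kernel
def st2_6_0 : starCk (nat_lit 61) (nat_lit 9) (nat_lit 1) (nat_lit 4) (nat_lit 18) (nat_lit 62) (nat_lit 256) C2_6 = true := by decide +kernel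
def sc2_6 : stCov (nat_lit 2) (nat_lit 62) (Rl.cons (nat_lit 62) (nat_lit 18) Rl.nil) C2_6 = true := by decide +kernel
def wf2_7 : wfC (nat_lit 61) (nat_lit 9) C2_7 = true := by decide +kernel
def rf2_7 : rfCk (nat_lit 61) (nat_lit 3) (nat_lit 61) (nat_lit 9) (nat_lit 9) (nat_lit 0) (nat_lit 7) TL2 CL1 CL2 = true := by decide +kernel
def st2_7_0 : starCk (nat_lit 61) (nat_lit 9) (nat_lit 1) (nat_lit 4) (nat_lit 19) (nat_lit 87) (nat_lit 16) C2_7 = true := by decide +kernel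
def sc2_7 : stCov (nat_lit 1) (nat_lit 87) (Rl.cons (nat_lit 87) (nat_lit 19) Rl.nil) C2_7 = true := by decide +kernel
def wf2_8 : wfC (nat_lit 61) (nat_lit 9) C2_8 = true := by decide +kernel
def rf2_8 : rfCk (nat_lit 61) (nat_lit 3) (nat_lit 61) (nat_lit 9) (nat_lit 9) (nat_lit 0) (nat_lit 8) TL2 CL1 CL2 = true := by decide +kernel
def st2_8_0 : starCk (nat_lit 61) (nat_lit 9) (nat_lit 1) (nat_lit 4) (nat_lit 14) (nat_lit 129) (nat_lit 256) C2_8 = true := by decide +kernel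
def sc2_8 : stCov (nat_lit 2) (nat_lit 129) (Rl.cons (nat_lit 129) (nat_lit 14) Rl.nil) C2_8 = true := by decide +kernel
def wf2_9 : wfC (nat_lit 61) (nat_lit 9) C2_9 = true := by decide +kernel
def rf2_9 : rfCk (nat_lit 61) (nat_lit 3) (nat_lit 61) (nat_lit 9) (nat_lit 9) (nat_lit 0) (nat_lit 9) TL2 CL1 CL2 = true := by decide +kernel
def st2_9_0 : starCk (nat_lit 61) (nat_lit 9) (nat_lit 1) (nat_lit 4) (nat_lit 16) (nat_lit 44) (nat_lit 16) C2_9 = true := by decide +kernel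
def sc2_9 : stCov (nat_lit 1) (nat_lit 44) (Rl.cons (nat_lit 44) (nat_lit 16) Rl.nil) C2_9 = true := by decide +kernel
def wf2_10 : wfC (nat_lit 61) (nat_lit 9) C2_10 = true := by decide +kernel
def rf2_10 : rfCk (nat_lit 61) (nat_lit 3) (nat_lit 61) (nat_lit 9) (nat_lit 9) (nat_lit 0) (nat_lit 10) TL2 CL1 CL2 = true := by decide +kernel
def st2_10_0 : starCk (nat_lit 61) (nat_lit 9) (nat_lit 1) (nat_lit 4) (nat_lit 2) (nat_lit 17) (nat_lit 256) C2_10 = true := by decide +kernel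
def sc2_10 : stCov (nat_lit 2) (nat_lit 17) (Rl.cons (nat_lit 17) (nat_lit 2) Rl.nil) C2_10 = true := by decide +kernel
def wf2_13 : wfC (nat_lit 61) (nat_lit 9) C2_13 = true := by decide +kernel
def rf2_13 : rfCk (nat_lit 61) (nat_lit 3) (nat_lit 61) (nat_lit 9) (nat_lit 9) (nat_lit 0) (nat_lit 13) TL2 CL1 CL2 = true := by decide +kernel
def st2_13_0 : starCk (nat_lit 61) (nat_lit 9) (nat_lit 1) (nat_lit 4) (nat_lit 219) (nat_lit 279) (nat_lit 4096) C2_13 = true := by decide +kernel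
def sc2_13 : stCov (nat_lit 3) (nat_lit 279) (Rl.cons (nat_lit 279) (nat_lit 219) Rl.nil) C2_13 = true := by decide +kernel
def wf2_14 : wfC (nat_lit 61) (nat_lit 9) C2_14 = true := by decide +kernel
def rf2_14 : rfCk (nat_lit 61) (nat_lit 3) (nat_lit 61) (nat_lit 9) (nat_lit 9) (nat_lit 0) (nat_lit 14) TL2 CL1 CL2 = true := by decide +kernel
def st2_14_0 : starCk (nat_lit 61) (nat_lit 9) (nat_lit 1) (nat_lit 4) (nat_lit 84) (nat_lit 255) (nat_lit 16) C2_14 = true := by decide +kernel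
def sc2_14 : stCov (nat_lit 1) (nat_lit 255) (Rl.cons (nat_lit 255) (nat_lit 84) Rl.nil) C2_14 = true := by decide +kernel
def wf2_15 : wfC (nat_lit 61) (nat_lit 9) C2_15 = true := by decide +kernel
def rf2_15 : rfCk (nat_lit 61) (nat_lit 3) (nat_lit 61) (nat_lit 9) (nat_lit 9) (nat_lit 0) (nat_lit 15) TL2 CL1 CL2 = true := by decide +kernel
def st2_15_0 : starCk (nat_lit 61) (nat_lit 9) (nat_lit 1) (nat_lit 4) (nat_lit 98) (nat_lit 226) (nat_lit 16) C2_15 = true := by decide +kernel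
def sc2_15 : stCov (nat_lit 1) (nat_lit 226) (Rl.cons (nat_lit 226) (nat_lit 98) Rl.nil) C2_15 = true := by decide +kernel
def wf2_16 : wfC (nat_lit 61) (nat_lit 9) C2_16 = true := by decide +kernel
def rf2_16 : rfCk (nat_lit 61) (nat_lit 3) (nat_lit 61) (nat_lit 9) (nat_lit 9) (nat_lit 0) (nat_lit 16) TL2 CL1 CL2 = true := by decide +kernel
def st2_16_0 : starCk (nat_lit 61) (nat_lit 9) (nat_lit 1) (nat_lit 4) (nat_lit 76) (nat_lit 187) (nat_lit 256) C2_16 = true := by decide +kernel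
def sc2_16 : stCov (nat_lit 2) (nat_lit 187) (Rl.cons (nat_lit 187) (nat_lit 76) Rl.nil) C2_16 = true := by decide +kernel
def wf2_17 : wfC (nat_lit 61) (nat_lit 9) C2_17 = true := by decide +kernel
def rf2_17 : rfCk (nat_lit 61) (nat_lit 3) (nat_lit 61) (nat_lit 9) (nat_lit 9) (nat_lit 0) (nat_lit 17) TL2 CL1 CL2 = true := by decide +kernel
def st2_17_0 : starCk (nat_lit 61) (nat_lit 9) (nat_lit 1) (nat_lit 4) (nat_lit 43) (nat_lit 187) (nat_lit 16) C2_17 = true := by decide +kernel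
def sc2_17 : stCov (nat_lit 1) (nat_lit 187) (Rl.cons (nat_lit 187) (nat_lit 43) Rl.nil) C2_17 = true := by decide +kernel
def wf2_18 : wfC (nat_lit 61) (nat_lit 9) C2_18 = true := by decide +kernel
def rf2_18 : rfCk (nat_lit 61) (nat_lit 3) (nat_lit 61) (nat_lit 9) (nat_lit 9) (nat_lit 0) (nat_lit 18) TL2 CL1 CL2 = true := by decide +kernel
def st2_18_0 : starCk (nat_lit 61) (nat_lit 9) (nat_lit 1) (nat_lit 4) (nat_lit 50) (nat_lit 74) (nat_lit 4096) C2_18 = true := by decide +kernel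
def sc2_18 : stCov (nat_lit 3) (nat_lit 74) (Rl.cons (nat_lit 74) (nat_lit 50) Rl.nil) C2_18 = true := by decide +kernel

end Pool.Agent.NNr.R15_1_4_5
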