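import Pool.Agent.NNr.R15_1_4_5.D2
import Pool.Agent.NNr.R15_1_4_5.D3

set_option linter.all false
set_option maxRecDepth 1000000
namespace Pool.Agent.NNr.R15_1_4_5

open Pool.Agent.NNe

def ti2_0 : tileCk (nat_lit 61) (nat_lit 9) (nat_lit 2) (nat_lit 4) (nat_lit 192) (nat_lit 15) (nat_lit 19) ZL2_0 CL2 = true := by decide +kernel
def zl2_0 : zlOK (nat_lit 192) ZL2_0 = true := by decide +kernel
def ti2_1 : tileCk (nat_lit 61) (nat_lit 9) (nat_lit 2) (nat_lit 4) (nat_lit 193) (nat_lit 15) (nat_lit 19) ZL2_1 CL2 = true := by decide +kernel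
def zl2_1 : zlOK (nat_lit 193) ZL2_1 = true := by decide +kernel
def ti2_2 : tileCk (nat_lit 61) (nat_lit 9) (nat_lit 2) (nat_lit 4) (nat_lit 56) (nat_lit 15) (nat_lit 19) ZL2_2 CL2 = true := by decide +kernel
def zl2_2 : zlOK (nat_lit 56) ZL2_2 = true := by decide +kernel
def tc2_0 : tiCov (nat_lit 1) (nat_lit 0) ZZ2 C2_0 = true := by decide +kernel
def tc2_1 : tiCov (nat_lit 1) (nat_lit 1) ZZ2 C2_1 = true := by decide +kernel
def tc2_2 : tiCov (nat_lit 1) (nat_lit 2) ZZ2 C2_2 = true := by decide +kernel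
def tc2_3 : tiCov (nat_lit 1) (nat_lit 3) ZZ2 C2_3 = true := by decide +kernel
def tc2_4 : tiCov (nat_lit 1) (nat_lit 4) ZZ2 C2_4 = true := by decide +kernel
def tc2_5 : tiCov (nat_lit 1) (nat_lit 5) ZZ2 C2_5 = true := by decide +kernel
def tc2_6 : tiCov (nat_lit 1) (nat_lit 6) ZZ2 C2_6 = true := by decide +kernel
def tc2_7 : tiCov (nat_lit 1) (nat_lit 7) ZZ2 C2_7 = true := by decide +kernel
def tc2_8 : tiCov (nat_lit 1) (nat_lit 8) ZZ2 C2_8 = true := by decide +kernel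
def tc2_9 : tiCov (nat_lit 1) (nat_lit 9) ZZ2 C2_9 = true := by decide +kernel
def tc2_10 : tiCov (nat_lit 1) (nat_lit 10) ZZ2 C2_10 = true := by decide +kernel
def tc2_13 : tiCov (nat_lit 1) (nat_lit 13) ZZ2 C2_13 = true := by decide +kernel
def tc2_14 : tiCov (nat_lit 1) (nat_lit 14) ZZ2 C2_14 = true := by decide +kernel
def tc2_15 : tiCov (nat_lit 1) (nat_lit 15) ZZ2 C2_15 = true := by decide +kernel
def tc2_16 : tiCov (nat_lit 1) (nat_lit 16) ZZ2 C2_16 = true := by decide +kernel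
def tc2_17 : tiCov (nat_lit 1) (nat_lit 17) ZZ2 C2_17 = true := by decide +kernel
def tc2_18 : tiCov (nat_lit 1) (nat_lit 18) ZZ2 C2_18 = true := by decide +kernel
def wf3_0 : wfC (nat_lit 43) (nat_lit 5) C3_0 = true := by decide +kernel
def rf3_0 : rfCk (nat_lit 61) (nat_lit 9) (nat_lit 43) (nat_lit 5) (nat_lit 9) (nat_lit 0) (nat_lit 0) TL3 CL2 CL3 = true := by decide +kernel
def st3_0_0 : starCk (nat_lit 43) (nat_lit 5) (nat_lit 1) (nat_lit 2) (nat_lit 5) (nat_lit 0) (nat_lit 256) C3_0 = true := by decide +kernel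
def sc3_0 : stCov (nat_lit 2) (nat_lit 0) (Rl.cons (nat_lit 0) (nat_lit 5) Rl.nil) C3_0 = true := by decide +kernel
def wf3_1 : wfC (nat_lit 43) (nat_lit 5) C3_1 = true := by decide +kernel
def rf3_1 : rfCk (nat_lit 61) (nat_lit 9) (nat_lit 43) (nat_lit 5) (nat_lit 9) (nat_lit 0) (nat_lit 1) TL3 CL2 CL3 = true := by decide +kernel
def st3_1_0 : starCk (nat_lit 43) (nat_lit 5) (nat_lit 1) (nat_lit 2) (nat_lit 2) (nat_lit 0) (nat_lit 16) C3_1 = true := by decide +kernel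
def sc3_1 : stCov (nat_lit 1) (nat_lit 0) (Rl.cons (nat_lit 0) (nat_lit 2) Rl.nil) C3_1 = true := by decide +kernel
def wf3_2 : wfC (nat_lit 43) (nat_lit 5) C3_2 = true := by decide +kernel
def rf3_2 : rfCk (nat_lit 61) (nat_lit 9) (nat_lit 43) (nat_lit 5) (nat_lit 9) (nat_lit 0) (nat_lit 2) TL3 CL2 CL3 = true := by decide +kernel
def st3_2_0 : starCk (nat_lit 43) (nat_lit 5) (nat_lit 1) (nat_lit 2) (nat_lit 5) (nat_lit 6) (nat_lit 1) C3_2 = true := by decide +kernel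
def sc3_2 : stCov (nat_lit 0) (nat_lit 6) (Rl.cons (nat_lit 6) (nat_lit 5) Rl.nil) C3_2 = true := by decide +kernel
def wf3_3 : wfC (nat_lit 43) (nat_lit 5) C3_3 = true := by decide +kernel
def rf3_3 : rfCk (nat_lit 61) (nat_lit 9) (nat_lit 43) (nat_lit 5) (nat_lit 9) (nat_lit 0) (nat_lit 3) TL3 CL2 CL3 = true := by decide +kernel
def st3_3_0 : starCk (nat_lit 43) (nat_lit 5) (nat_lit 1) (nat_lit 2) (nat_lit 6) (nat_lit 7) (nat_lit 1) C3_3 = true := by decide +kernel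
def sc3_3 : stCov (nat_lit 0) (nat_lit 7) (Rl.cons (nat_lit 7) (nat_lit 6) Rl.nil) C3_3 = true := by decide +kernel
def wf3_4 : wfC (nat_lit 43) (nat_lit 5) C3_4 = true := by decide +kernel
def rf3_4 : rfCk (nat_lit 61) (nat_lit 9) (nat_lit 43) (nat_lit 5) (nat_lit 9) (nat_lit 0) (nat_lit 4) TL3 CL2 CL3 = true := by decide +kernel
def st3_4_0 : starCk (nat_lit 43) (nat_lit 5) (nat_lit 1) (nat_lit 2) (nat_lit 5) (nat_lit 63) (nat_lit 256) C3_4 = true := by decide +kernel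
def sc3_4 : stCov (nat_lit 2) (nat_lit 63) (Rl.cons (nat_lit 63) (nat_lit 5) Rl.nil) C3_4 = true := by decide +kernel
def wf3_5 : wfC (nat_lit 43) (nat_lit 5) C3_5 = true := by decide +kernel
def rf3_5 : rfCk (nat_lit 61) (nat_lit 9) (nat_lit 43) (nat_lit 5) (nat_lit 9) (nat_lit 0) (nat_lit 5) TL3 CL2 CL3 = true := by decide +kernel
def st3_5_0 : starCk (nat_lit 43) (nat_lit 5) (nat_lit 1) (nat_lit 2) (nat_lit 7) (nat_lit 8) (nat_lit 1) C3_5 = true := by decide +kernel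
def sc3_5 : stCov (nat_lit 0) (nat_lit 8) (Rl.cons (nat_lit 8) (nat_lit 7) Rl.nil) C3_5 = true := by decide +kernel
def wf3_7 : wfC (nat_lit 43) (nat_lit 5) C3_7 = true := by decide +kernel
def rf3_7 : rfCk (nat_lit 61) (nat_lit 9) (nat_lit 43) (nat_lit 5) (nat_lit 9) (nat_lit 0) (nat_lit 7) TL3 CL2 CL3 = true := by decide +kernel
def st3_7_0 : starCk (nat_lit 43) (nat_lit 5) (nat_lit 1) (nat_lit 2) (nat_lit 3) (nat_lit 9) (nat_lit 16) C3_7 = true := by decide +kernel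
def sc3_7 : stCov (nat_lit 1) (nat_lit 9) (Rl.cons (nat_lit 9) (nat_lit 3) Rl.nil) C3_7 = true := by decide +kernel
def wf3_8 : wfC (nat_lit 43) (nat_lit 5) C3_8 = true := by decide +kernel
def rf3_8 : rfCk (nat_lit 61) (nat_lit 9) (nat_lit 43) (nat_lit 5) (nat_lit 9) (nat_lit 0) (nat_lit 8) TL3 CL2 CL3 = true := by decide +kernel
def st3_8_0 : starCk (nat_lit 43) (nat_lit 5) (nat_lit 1) (nat_lit 2) (nat_lit 6) (nat_lit 57) (nat_lit 256) C3_8 = true := by decide +kernel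
def sc3_8 : stCov (nat_lit 2) (nat_lit 57) (Rl.cons (nat_lit 57) (nat_lit 6) Rl.nil) C3_8 = true := by decide +kernel
def wf3_9 : wfC (nat_lit 43) (nat_lit 5) C3_9 = true := by decide +kernel
def rf3_9 : rfCk (nat_lit 61) (nat_lit 9) (nat_lit 43) (nat_lit 5) (nat_lit 9) (nat_lit 0) (nat_lit 9) TL3 CL2 CL3 = true := by decide +kernel
def st3_9_0 : starCk (nat_lit 43) (nat_lit 5) (nat_lit 1) (nat_lit 2) (nat_lit 9) (nat_lit 16) (nat_lit 16) C3_9 = true := by decide +kernel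
def sc3_9 : stCov (nat_lit 1) (nat_lit 16) (Rl.cons (nat_lit 16) (nat_lit 9) Rl.nil) C3_9 = true := by decide +kernel
def wf3_10 : wfC (nat_lit 43) (nat_lit 5) C3_10 = true := by decide +kernel
def rf3_10 : rfCk (nat_lit 61) (nat_lit 9) (nat_lit 43) (nat_lit 5) (nat_lit 9) (nat_lit 0) (nat_lit 10) TL3 CL2 CL3 = true := by decide +kernel
def st3_10_0 : starCk (nat_lit 43) (nat_lit 5) (nat_lit 1) (nat_lit 2) (nat_lit 1) (nat_lit 7) (nat_lit 256) C3_10 = true := by decide +kernel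
def sc3_10 : stCov (nat_lit 2) (nat_lit 7) (Rl.cons (nat_lit 7) (nat_lit 1) Rl.nil) C3_10 = true := by decide +kernel
def wf3_13 : wfC (nat_lit 43) (nat_lit 5) C3_13 = true := by decide +kernel
def rf3_13 : rfCk (nat_lit 61) (nat_lit 9) (nat_lit 43) (nat_lit 5) (nat_lit 9) (nat_lit 0) (nat_lit 13) TL3 CL2 CL3 = true := by decide +kernel
def st3_13_0 : starCk (nat_lit 43) (nat_lit 5) (nat_lit 1) (nat_lit 2) (nat_lit 71) (nat_lit 96) (nat_lit 4096) C3_13 = true := by decide +kernel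
def sc3_13 : stCov (nat_lit 3) (nat_lit 96) (Rl.cons (nat_lit 96) (nat_lit 71) Rl.nil) C3_13 = true := by decide +kernel
def wf3_14 : wfC (nat_lit 43) (nat_lit 5) C3_14 = true := by decide +kernel
def rf3_14 : rfCk (nat_lit 61) (nat_lit 9) (nat_lit 43) (nat_lit 5) (nat_lit 9) (nat_lit 0) (nat_lit 14) TL3 CL2 CL3 = true := by decide +kernel
def st3_14_0 : starCk (nat_lit 43) (nat_lit 5) (nat_lit 1) (nat_lit 2) (nat_lit 24) (nat_lit 61) (nat_lit 16) C3_14 = true := by decide +kernel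
def sc3_14 : stCov (nat_lit 1) (nat_lit 61) (Rl.cons (nat_lit 61) (nat_lit 24) Rl.nil) C3_14 = true := by decide +kernel
def wf3_15 : wfC (nat_lit 43) (nat_lit 5) C3_15 = true := by decide +kernel
def rf3_15 : rfCk (nat_lit 61) (nat_lit 9) (nat_lit 43) (nat_lit 5) (nat_lit 9) (nat_lit 0) (nat_lit 15) TL3 CL2 CL3 = true := by decide +kernel
def st3_15_0 : starCk (nat_lit 43) (nat_lit 5) (nat_lit 1) (nat_lit 2) (nat_lit 52) (nat_lit 99) (nat_lit 4096) C3_15 = true := by decide +kernel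
def sc3_15 : stCov (nat_lit 3) (nat_lit 99) (Rl.cons (nat_lit 99) (nat_lit 52) Rl.nil) C3_15 = true := by decide +kernel
def wf3_16 : wfC (nat_lit 43) (nat_lit 5) C3_16 = true := by decide +kernel
def rf3_16 : rfCk (nat_lit 61) (nat_lit 9) (nat_lit 43) (nat_lit 5) (nat_lit 9) (nat_lit 0) (nat_lit 16) TL3 CL2 CL3 = true := by decide +kernel
def st3_16_0 : starCk (nat_lit 43) (nat_lit 5) (nat_lit 1) (nat_lit 2) (nat_lit 1) (nat_lit 5) (nat_lit 256) C3_16 = true := by decide +kernel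
def sc3_16 : stCov (nat_lit 2) (nat_lit 5) (Rl.cons (nat_lit 5) (nat_lit 1) Rl.nil) C3_16 = true := by decide +kernel
def wf3_17 : wfC (nat_lit 43) (nat_lit 5) C3_17 = true := by decide +kernel
def rf3_17 : rfCk (nat_lit 61) (nat_lit 9) (nat_lit 43) (nat_lit 5) (nat_lit 9) (nat_lit 0) (nat_lit 17) TL3 CL2 CL3 = true := by decide +kernel
def st3_17_0 : starCk (nat_lit 43) (nat_lit 5) (nat_lit 1) (nat_lit 2) (nat_lit 11) (nat_lit 38) (nat_lit 16) C3_17 = true := by decide +kernel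
def sc3_17 : stCov (nat_lit 1) (nat_lit 38) (Rl.cons (nat_lit 38) (nat_lit 11) Rl.nil) C3_17 = true := by decide +kernel
def wf3_18 : wfC (nat_lit 43) (nat_lit 5) C3_18 = true := by decide +kernel
def rf3_18 : rfCk (nat_lit 61) (nat_lit 9) (nat_lit 43) (nat_lit 5) (nat_lit 9) (nat_lit 0) (nat_lit 18) TL3 CL2 CL3 = true := by decide +kernel
def st3_18_0 : starCk (nat_lit 43) (nat_lit 5) (nat_lit 1) (nat_lit 2) (nat_lit 15) (nat_lit 26) (nat_lit 4096) C3_18 = true := by decide +kernel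
def sc3_18 : stCov (nat_lit 3) (nat_lit 26) (Rl.cons (nat_lit 26) (nat_lit 15) Rl.nil) C3_18 = true := by decide +kernel

end Pool.Agent.NNr.R15_1_4_5
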