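import Pool.Agent.NNe.Chk

set_option linter.all false
set_option maxRecDepth 1000000
namespace Pool.Agent.NNr.R15_1_4_5

open Pool.Agent.NNe

noncomputable def SI4_0 : Nat := (nat_lit 0)
noncomputable def SW4_0 : Nat := (nat_lit 0)
noncomputable def RV4_0 : Nat := (nat_lit 0x494000)
noncomputable def CO4_0 : Nat := (nat_lit 0x2a80a)
noncomputable def C4_0 : Cd := (Cd.mk (nat_lit 1) (nat_lit 4) (nat_lit 1024) SI4_0 SW4_0 RV4_0 CO4_0 (Sl.cons (Sd.mk (nat_lit 10) (nat_lit 8) (nat_lit 0) (nat_lit 1) (Sb.cons (nat_lit 8) (nat_lit 0) (nat_lit 1) Sb.nil) Bl.nil) Sl.nil))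
noncomputable def C4_1 : Cd := (Cd.mk (nat_lit 0) (nat_lit 5) (nat_lit 80) (nat_lit 0) (nat_lit 0) (nat_lit 0) (nat_lit 0) Sl.nil)
noncomputable def C4_2 : Cd := (Cd.mk (nat_lit 0) (nat_lit 5) (nat_lit 785) (nat_lit 0) (nat_lit 0) (nat_lit 0) (nat_lit 0) Sl.nil)
noncomputable def C4_3 : Cd := (Cd.mk (nat_lit 0) (nat_lit 6) (nat_lit 546) (nat_lit 0) (nat_lit 0) (nat_lit 0) (nat_lit 0) Sl.nil)
noncomputable def C4_4 : Cd := (Cd.mk (nat_lit 0) (nat_lit 7) (nat_lit 307) (nat_lit 0) (nat_lit 0) (nat_lit 0) (nat_lit 0) Sl.nil)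
noncomputable def C4_5 : Cd := (Cd.mk (nat_lit 0) (nat_lit 8) (nat_lit 68) (nat_lit 0) (nat_lit 0) (nat_lit 0) (nat_lit 0) Sl.nil)
noncomputable def C4_6 : Cd := (Cd.mk (nat_lit 0) (nat_lit 8) (nat_lit 773) (nat_lit 0) (nat_lit 0) (nat_lit 0) (nat_lit 0) Sl.nil)
noncomputable def C4_7 : Cd := (Cd.mk (nat_lit 0) (nat_lit 9) (nat_lit 534) (nat_lit 0) (nat_lit 0) (nat_lit 0) (nat_lit 0) Sl.nil)
noncomputable def C4_8 : Cd := (Cd.mk (nat_lit 0) (nat_lit 10) (nat_lit 295) (nat_lit 0) (nat_lit 0) (nat_lit 0) (nat_lit 0) Sl.nil)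
noncomputable def C4_9 : Cd := (Cd.mk (nat_lit 0) (nat_lit 11) (nat_lit 56) (nat_lit 0) (nat_lit 0) (nat_lit 0) (nat_lit 0) Sl.nil)
noncomputable def SI4_10 : Nat := (nat_lit 0)
noncomputable def SW4_10 : Nat := (nat_lit 0)
noncomputable def RV4_10 : Nat := (nat_lit 0x80000)
noncomputable def CO4_10 : Nat := (nat_lit 0x8a80)
noncomputable def C4_10 : Cd := (Cd.mk (nat_lit 1) (nat_lit 12) (nat_lit 522) SI4_10 SW4_10 RV4_10 CO4_10 (Sl.cons (Sd.mk (nat_lit 2) (nat_lit 0) (nat_lit 0) (nat_lit 1) (Sb.cons (nat_lit 0) (nat_lit 0) (nat_lit 1) Sb.nil) Bl.nil) Sl.nil))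
noncomputable def C4_11 : Cd := (Cd.mk (nat_lit 0) (nat_lit 13) (nat_lit 283) (nat_lit 0) (nat_lit 0) (nat_lit 0) (nat_lit 0) Sl.nil)
noncomputable def C4_12 : Cd := (Cd.mk (nat_lit 0) (nat_lit 14) (nat_lit 44) (nat_lit 0) (nat_lit 0) (nat_lit 0) (nat_lit 0) Sl.nil)
noncomputable def C4_13 : Cd := (Cd.mk (nat_lit 0) (nat_lit 3) (nat_lit 4608) (nat_lit 0) (nat_lit 0) (nat_lit 0) (nat_lit 0) Sl.nil)
noncomputable def C4_14 : Cd := (Cd.mk (nat_lit 0) (nat_lit 4) (nat_lit 4369) (nat_lit 0) (nat_lit 0) (nat_lit 0) (nat_lit 0) Sl.nil)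
noncomputable def C4_15 : Cd := (Cd.mk (nat_lit 0) (nat_lit 5) (nat_lit 4130) (nat_lit 0) (nat_lit 0) (nat_lit 0) (nat_lit 0) Sl.nil)
noncomputable def C4_16 : Cd := (Cd.mk (nat_lit 0) (nat_lit 7) (nat_lit 4357) (nat_lit 0) (nat_lit 0) (nat_lit 0) (nat_lit 0) Sl.nil)
noncomputable def C4_17 : Cd := (Cd.mk (nat_lit 0) (nat_lit 8) (nat_lit 4118) (nat_lit 0) (nat_lit 0) (nat_lit 0) (nat_lit 0) Sl.nil)
noncomputable def C4_18 : Cd := (Cd.mk (nat_lit 0) (nat_lit 11) (nat_lit 4106) (nat_lit 0) (nat_lit 0) (nat_lit 0) (nat_lit 0) Sl.nil)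
noncomputable def CL4 : Cl := (Cl.cons C4_0 (Cl.cons C4_1 (Cl.cons C4_2 (Cl.cons C4_3 (Cl.cons C4_4 (Cl.cons C4_5 (Cl.cons C4_6 (Cl.cons C4_7 (Cl.cons C4_8 (Cl.cons C4_9 (Cl.cons C4_10 (Cl.cons C4_11 (Cl.cons C4_12 (Cl.cons C4_13 (Cl.cons C4_14 (Cl.cons C4_15 (Cl.cons C4_16 (Cl.cons C4_17 (Cl.cons C4_18 Cl.nil)))))))))))))))))))
noncomputable def AL4_0 : Nat := (nat_lit 0x431)
noncomputable def A44_0 : Nat := (nat_lit 0x400)
noncomputable def IX4_0 : Nat := (nat_lit 0)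
noncomputable def OL4_0 : Nat := (nat_lit 0x28)
noncomputable def AL4_1 : Nat := (nat_lit 0)
noncomputable def A44_1 : Nat := (nat_lit 0)
noncomputable def IX4_1 : Nat := (nat_lit 0)
noncomputable def OL4_1 : Nat := (nat_lit 0)
noncomputable def AL4_2 : Nat := (nat_lit 0)
noncomputable def A44_2 : Nat := (nat_lit 0)
noncomputable def IX4_2 : Nat := (nat_lit 0)
noncomputable def OL4_2 : Nat := (nat_lit 0)
noncomputable def AL4_3 : Nat := (nat_lit 0)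
noncomputable def A44_3 : Nat := (nat_lit 0)
noncomputable def IX4_3 : Nat := (nat_lit 0)
noncomputable def OL4_3 : Nat := (nat_lit 0)
noncomputable def AL4_4 : Nat := (nat_lit 0)
noncomputable def A44_4 : Nat := (nat_lit 0)
noncomputable def IX4_4 : Nat := (nat_lit 0)
noncomputable def OL4_4 : Nat := (nat_lit 0)
noncomputable def AL4_5 : Nat := (nat_lit 0)
noncomputable def A44_5 : Nat := (nat_lit 0)
noncomputable def IX4_5 : Nat := (nat_lit 0)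
noncomputable def OL4_5 : Nat := (nat_lit 0)
noncomputable def AL4_6 : Nat := (nat_lit 0)
noncomputable def A44_6 : Nat := (nat_lit 0)
noncomputable def IX4_6 : Nat := (nat_lit 0)
noncomputable def OL4_6 : Nat := (nat_lit 0)
noncomputable def AL4_7 : Nat := (nat_lit 0)
noncomputable def A44_7 : Nat := (nat_lit 0)
noncomputable def IX4_7 : Nat := (nat_lit 0)
noncomputable def OL4_7 : Nat := (nat_lit 0)
noncomputable def AL4_8 : Nat := (nat_lit 0)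
noncomputable def A44_8 : Nat := (nat_lit 0)
noncomputable def IX4_8 : Nat := (nat_lit 0)
noncomputable def OL4_8 : Nat := (nat_lit 0)
noncomputable def AL4_9 : Nat := (nat_lit 0)
noncomputable def A44_9 : Nat := (nat_lit 0)
noncomputable def IX4_9 : Nat := (nat_lit 0)
noncomputable def OL4_9 : Nat := (nat_lit 0)
noncomputable def AL4_10 : Nat := (nat_lit 0x1b1)
noncomputable def A44_10 : Nat := (nat_lit 0x10)
noncomputable def IX4_10 : Nat := (nat_lit 0)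
noncomputable def OL4_10 : Nat := (nat_lit 0x10)
noncomputable def AL4_11 : Nat := (nat_lit 0)
noncomputable def A44_11 : Nat := (nat_lit 0)
noncomputable def IX4_11 : Nat := (nat_lit 0)
noncomputable def OL4_11 : Nat := (nat_lit 0)
noncomputable def AL4_12 : Nat := (nat_lit 0)
noncomputable def A44_12 : Nat := (nat_lit 0)
noncomputable def IX4_12 : Nat := (nat_lit 0)
noncomputable def OL4_12 : Nat := (nat_lit 0)
noncomputable def AL4_13 : Nat := (nat_lit 0)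
noncomputable def A44_13 : Nat := (nat_lit 0)
noncomputable def IX4_13 : Nat := (nat_lit 0)
noncomputable def OL4_13 : Nat := (nat_lit 0)
noncomputable def AL4_14 : Nat := (nat_lit 0)
noncomputable def A44_14 : Nat := (nat_lit 0)
noncomputable def IX4_14 : Nat := (nat_lit 0)
noncomputable def OL4_14 : Nat := (nat_lit 0)
noncomputable def AL4_15 : Nat := (nat_lit 0)
noncomputable def A44_15 : Nat := (nat_lit 0)
noncomputable def IX4_15 : Nat := (nat_lit 0)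
noncomputable def OL4_15 : Nat := (nat_lit 0)
noncomputable def AL4_16 : Nat := (nat_lit 0)
noncomputable def A44_16 : Nat := (nat_lit 0)
noncomputable def IX4_16 : Nat := (nat_lit 0)
noncomputable def OL4_16 : Nat := (nat_lit 0)
noncomputable def AL4_17 : Nat := (nat_lit 0)
noncomputable def A44_17 : Nat := (nat_lit 0)
noncomputable def IX4_17 : Nat := (nat_lit 0)
noncomputable def OL4_17 : Nat := (nat_lit 0)
noncomputable def AL4_18 : Nat := (nat_lit 0)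
noncomputable def A44_18 : Nat := (nat_lit 0)
noncomputable def IX4_18 : Nat := (nat_lit 0)
noncomputable def OL4_18 : Nat := (nat_lit 0)
noncomputable def TL4 : Tl := (Tl.cons (Tr.mk AL4_0 A44_0 IX4_0 OL4_0) (Tl.cons (Tr.mk AL4_1 A44_1 IX4_1 OL4_1) (Tl.cons (Tr.mk AL4_2 A44_2 IX4_2 OL4_2) (Tl.cons (Tr.mk AL4_3 A44_3 IX4_3 OL4_3) (Tl.cons (Tr.mk AL4_4 A44_4 IX4_4 OL4_4) (Tl.cons (Tr.mk AL4_5 A44_5 IX4_5 OL4_5) (Tl.cons (Tr.mk AL4_6 A44_6 IX4_6 OL4_6) (Tl.cons (Tr.mk AL4_7 A44_7 IX4_7 OL4_7) (Tl.cons (Tr.mk AL4_8 A44_8 IX4_8 OL4_8) (Tl.cons (Tr.mk AL4_9 A44_9 IX4_9 OL4_9) (Tl.cons (Tr.mk AL4_10 A44_10 IX4_10 OL4_10) (Tl.cons (Tr.mk AL4_11 A44_11 IX4_11 OL4_11) (Tl.cons (Tr.mk AL4_12 A44_12 IX4_12 OL4_12) (Tl.cons (Tr.mk AL4_13 A44_13 IX4_13 OL4_13) (Tl.cons (Tr.mk AL4_14 A44_14 IX4_14 OL4_14) (Tl.cons (Tr.mk AL4_15 A44_15 IX4_15 OL4_15) (Tl.cons (Tr.mk AL4_16 A44_16 IX4_16 OL4_16) (Tl.cons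 (Tr.mk AL4_17 A44_17 IX4_17 OL4_17) (Tl.cons (Tr.mk AL4_18 A44_18 IX4_18 OL4_18) Tl.nil)))))))))))))))))))

end Pool.Agent.NNr.R15_1_4_5
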