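import Pool.Agent.NNr.R15_1_4_5.D0
import Pool.Agent.NNr.R15_1_4_5.D1
import Pool.Agent.NNr.R15_1_4_5.D2
import Pool.Agent.NNr.R15_1_4_5.D3
import Pool.Agent.NNr.R15_1_4_5.D4
import Pool.Agent.NNe.Slots

set_option linter.all false
set_option maxRecDepth 1000000
namespace Pool.Agent.NNr.R15_1_4_5

open Pool.Agent.NNe

def ti3_0 : tileCk (nat_lit 43) (nat_lit 5) (nat_lit 2) (nat_lit 2) (nat_lit 115) (nat_lit 15) (nat_lit 19) ZL3_0 CL3 = true := by decide +kernel
def zl3_0 : zlOK (nat_lit 115) ZL3_0 = true := by decide +kernel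
def ti3_1 : tileCk (nat_lit 43) (nat_lit 5) (nat_lit 2) (nat_lit 2) (nat_lit 14) (nat_lit 15) (nat_lit 19) ZL3_1 CL3 = true := by decide +kernel
def zl3_1 : zlOK (nat_lit 14) ZL3_1 = true := by decide +kernel
def tc3_0 : tiCov (nat_lit 1) (nat_lit 0) ZZ3 C3_0 = true := by decide +kernel
def tc3_1 : tiCov (nat_lit 1) (nat_lit 1) ZZ3 C3_1 = true := by decide +kernel
def tc3_2 : tiCov (nat_lit 1) (nat_lit 2) ZZ3 C3_2 = true := by decide +kernel
def tc3_3 : tiCov (nat_lit 1) (nat_lit 3) ZZ3 C3_3 = true := by decide +kernel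
def tc3_4 : tiCov (nat_lit 1) (nat_lit 4) ZZ3 C3_4 = true := by decide +kernel
def tc3_5 : tiCov (nat_lit 1) (nat_lit 5) ZZ3 C3_5 = true := by decide +kernel
def tc3_7 : tiCov (nat_lit 1) (nat_lit 7) ZZ3 C3_7 = true := by decide +kernel
def tc3_8 : tiCov (nat_lit 1) (nat_lit 8) ZZ3 C3_8 = true := by decide +kernel
def tc3_9 : tiCov (nat_lit 1) (nat_lit 9) ZZ3 C3_9 = true := by decide +kernel
def tc3_10 : tiCov (nat_lit 1) (nat_lit 10) ZZ3 C3_10 = true := by decide +kernel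
def tc3_13 : tiCov (nat_lit 1) (nat_lit 13) ZZ3 C3_13 = true := by decide +kernel
def tc3_14 : tiCov (nat_lit 1) (nat_lit 14) ZZ3 C3_14 = true := by decide +kernel
def tc3_15 : tiCov (nat_lit 1) (nat_lit 15) ZZ3 C3_15 = true := by decide +kernel
def tc3_16 : tiCov (nat_lit 1) (nat_lit 16) ZZ3 C3_16 = true := by decide +kernel
def tc3_17 : tiCov (nat_lit 1) (nat_lit 17) ZZ3 C3_17 = true := by decide +kernel
def tc3_18 : tiCov (nat_lit 1) (nat_lit 18) ZZ3 C3_18 = true := by decide +kernel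
def wf4_0 : wfC (nat_lit 2) (nat_lit 1) C4_0 = true := by decide +kernel
def rf4_0 : rfCk (nat_lit 43) (nat_lit 5) (nat_lit 2) (nat_lit 1) (nat_lit 9) (nat_lit 0) (nat_lit 0) TL4 CL3 CL4 = true := by decide +kernel
def wf4_10 : wfC (nat_lit 2) (nat_lit 1) C4_10 = true := by decide +kernel
def rf4_10 : rfCk (nat_lit 43) (nat_lit 5) (nat_lit 2) (nat_lit 1) (nat_lit 9) (nat_lit 0) (nat_lit 10) TL4 CL3 CL4 = true := by decide +kernel
def de4_0 : deadCk (nat_lit 2) (nat_lit 1) C4_0 = true := by decide +kernel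
def de4_10 : deadCk (nat_lit 2) (nat_lit 1) C4_10 = true := by decide +kernel
def wf1_11 : wfC (nat_lit 61) (nat_lit 3) C1_11 = true := by decide +kernel
def wf1_12 : wfC (nat_lit 61) (nat_lit 3) C1_12 = true := by decide +kernel
def rf1_11 : rfCk (nat_lit 61) (nat_lit 5) (nat_lit 61) (nat_lit 3) (nat_lit 1) (nat_lit 262144) (nat_lit 11) TL1 CL0 CL1 = true := by decide +kernel
def rf1_12 : rfCk (nat_lit 61) (nat_lit 5) (nat_lit 61) (nat_lit 3) (nat_lit 1) (nat_lit 262144) (nat_lit 12) TL1 CL0 CL1 = true := by decide +kernel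
def sc1_11 : stCov (nat_lit 0) (nat_lit 0) Rl.nil C1_11 = true := by decide +kernel
def sc1_12 : stCov (nat_lit 0) (nat_lit 0) Rl.nil C1_12 = true := by decide +kernel
def tc1_11 : tiCov (nat_lit 1) (nat_lit 11) ZZ1 C1_11 = true := by decide +kernel
def tc1_12 : tiCov (nat_lit 1) (nat_lit 12) ZZ1 C1_12 = true := by decide +kernel
def wf2_11 : wfC (nat_lit 61) (nat_lit 9) C2_11 = true := by decide +kernel
def wf2_12 : wfC (nat_lit 61) (nat_lit 9) C2_12 = true := by decide +kernel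
def rf2_11 : rfCk (nat_lit 61) (nat_lit 3) (nat_lit 61) (nat_lit 9) (nat_lit 9) (nat_lit 0) (nat_lit 11) TL2 CL1 CL2 = true := by decide +kernel
def rf2_12 : rfCk (nat_lit 61) (nat_lit 3) (nat_lit 61) (nat_lit 9) (nat_lit 9) (nat_lit 0) (nat_lit 12) TL2 CL1 CL2 = true := by decide +kernel
def sc2_11 : stCov (nat_lit 0) (nat_lit 0) Rl.nil C2_11 = true := by decide +kernel
def sc2_12 : stCov (nat_lit 0) (nat_lit 0) Rl.nil C2_12 = true := by decide +kernel
def tc2_11 : tiCov (nat_lit 1) (nat_lit 11) ZZ2 C2_11 = true := by decide +kernel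
def tc2_12 : tiCov (nat_lit 1) (nat_lit 12) ZZ2 C2_12 = true := by decide +kernel
def wf3_6 : wfC (nat_lit 43) (nat_lit 5) C3_6 = true := by decide +kernel
def wf3_11 : wfC (nat_lit 43) (nat_lit 5) C3_11 = true := by decide +kernel
def wf3_12 : wfC (nat_lit 43) (nat_lit 5) C3_12 = true := by decide +kernel
def rf3_6 : rfCk (nat_lit 61) (nat_lit 9) (nat_lit 43) (nat_lit 5) (nat_lit 9) (nat_lit 0) (nat_lit 6) TL3 CL2 CL3 = true := by decide +kernel
def rf3_11 : rfCk (nat_lit 61) (nat_lit 9) (nat_lit 43) (nat_lit 5) (nat_lit 9) (nat_lit 0) (nat_lit 11) TL3 CL2 CL3 = true := by decide +kernel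
def rf3_12 : rfCk (nat_lit 61) (nat_lit 9) (nat_lit 43) (nat_lit 5) (nat_lit 9) (nat_lit 0) (nat_lit 12) TL3 CL2 CL3 = true := by decide +kernel
def sc3_6 : stCov (nat_lit 0) (nat_lit 0) Rl.nil C3_6 = true := by decide +kernel
def sc3_11 : stCov (nat_lit 0) (nat_lit 0) Rl.nil C3_11 = true := by decide +kernel
def sc3_12 : stCov (nat_lit 0) (nat_lit 0) Rl.nil C3_12 = true := by decide +kernel
def tc3_6 : tiCov (nat_lit 1) (nat_lit 6) ZZ3 C3_6 = true := by decide +kernel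
def tc3_11 : tiCov (nat_lit 1) (nat_lit 11) ZZ3 C3_11 = true := by decide +kernel
def tc3_12 : tiCov (nat_lit 1) (nat_lit 12) ZZ3 C3_12 = true := by decide +kernel
def wf4_1 : wfC (nat_lit 2) (nat_lit 1) C4_1 = true := by decide +kernel
def wf4_2 : wfC (nat_lit 2) (nat_lit 1) C4_2 = true := by decide +kernel
def wf4_3 : wfC (nat_lit 2) (nat_lit 1) C4_3 = true := by decide +kernel
def wf4_4 : wfC (nat_lit 2) (nat_lit 1) C4_4 = true := by decide +kernel
def wf4_5 : wfC (nat_lit 2) (nat_lit 1) C4_5 = true := by decide +kernel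
def wf4_6 : wfC (nat_lit 2) (nat_lit 1) C4_6 = true := by decide +kernel
def wf4_7 : wfC (nat_lit 2) (nat_lit 1) C4_7 = true := by decide +kernel
def wf4_8 : wfC (nat_lit 2) (nat_lit 1) C4_8 = true := by decide +kernel
def wf4_9 : wfC (nat_lit 2) (nat_lit 1) C4_9 = true := by decide +kernel
def wf4_11 : wfC (nat_lit 2) (nat_lit 1) C4_11 = true := by decide +kernel
def wf4_12 : wfC (nat_lit 2) (nat_lit 1) C4_12 = true := by decide +kernel
def wf4_13 : wfC (nat_lit 2) (nat_lit 1) C4_13 = true := by decide +kernel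
def wf4_14 : wfC (nat_lit 2) (nat_lit 1) C4_14 = true := by decide +kernel
def wf4_15 : wfC (nat_lit 2) (nat_lit 1) C4_15 = true := by decide +kernel
def wf4_16 : wfC (nat_lit 2) (nat_lit 1) C4_16 = true := by decide +kernel
def wf4_17 : wfC (nat_lit 2) (nat_lit 1) C4_17 = true := by decide +kernel
def wf4_18 : wfC (nat_lit 2) (nat_lit 1) C4_18 = true := by decide +kernel
def rf4_1 : rfCk (nat_lit 43) (nat_lit 5) (nat_lit 2) (nat_lit 1) (nat_lit 9) (nat_lit 0) (nat_lit 1) TL4 CL3 CL4 = true := by decide +kernel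
def rf4_2 : rfCk (nat_lit 43) (nat_lit 5) (nat_lit 2) (nat_lit 1) (nat_lit 9) (nat_lit 0) (nat_lit 2) TL4 CL3 CL4 = true := by decide +kernel
def rf4_3 : rfCk (nat_lit 43) (nat_lit 5) (nat_lit 2) (nat_lit 1) (nat_lit 9) (nat_lit 0) (nat_lit 3) TL4 CL3 CL4 = true := by decide +kernel
def rf4_4 : rfCk (nat_lit 43) (nat_lit 5) (nat_lit 2) (nat_lit 1) (nat_lit 9) (nat_lit 0) (nat_lit 4) TL4 CL3 CL4 = true := by decide +kernel
def rf4_5 : rfCk (nat_lit 43) (nat_lit 5) (nat_lit 2) (nat_lit 1) (nat_lit 9) (nat_lit 0) (nat_lit 5) TL4 CL3 CL4 = true := by decide +kernel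
def rf4_6 : rfCk (nat_lit 43) (nat_lit 5) (nat_lit 2) (nat_lit 1) (nat_lit 9) (nat_lit 0) (nat_lit 6) TL4 CL3 CL4 = true := by decide +kernel
def rf4_7 : rfCk (nat_lit 43) (nat_lit 5) (nat_lit 2) (nat_lit 1) (nat_lit 9) (nat_lit 0) (nat_lit 7) TL4 CL3 CL4 = true := by decide +kernel
def rf4_8 : rfCk (nat_lit 43) (nat_lit 5) (nat_lit 2) (nat_lit 1) (nat_lit 9) (nat_lit 0) (nat_lit 8) TL4 CL3 CL4 = true := by decide +kernel
def rf4_9 : rfCk (nat_lit 43) (nat_lit 5) (nat_lit 2) (nat_lit 1) (nat_lit 9) (nat_lit 0) (nat_lit 9) TL4 CL3 CL4 = true := by decide +kernel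
def rf4_11 : rfCk (nat_lit 43) (nat_lit 5) (nat_lit 2) (nat_lit 1) (nat_lit 9) (nat_lit 0) (nat_lit 11) TL4 CL3 CL4 = true := by decide +kernel
def rf4_12 : rfCk (nat_lit 43) (nat_lit 5) (nat_lit 2) (nat_lit 1) (nat_lit 9) (nat_lit 0) (nat_lit 12) TL4 CL3 CL4 = true := by decide +kernel
def rf4_13 : rfCk (nat_lit 43) (nat_lit 5) (nat_lit 2) (nat_lit 1) (nat_lit 9) (nat_lit 0) (nat_lit 13) TL4 CL3 CL4 = true := by decide +kernel
def rf4_14 : rfCk (nat_lit 43) (nat_lit 5) (nat_lit 2) (nat_lit 1) (nat_lit 9) (nat_lit 0) (nat_lit 14) TL4 CL3 CL4 = true := by decide +kernel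
def rf4_15 : rfCk (nat_lit 43) (nat_lit 5) (nat_lit 2) (nat_lit 1) (nat_lit 9) (nat_lit 0) (nat_lit 15) TL4 CL3 CL4 = true := by decide +kernel
def rf4_16 : rfCk (nat_lit 43) (nat_lit 5) (nat_lit 2) (nat_lit 1) (nat_lit 9) (nat_lit 0) (nat_lit 16) TL4 CL3 CL4 = true := by decide +kernel
def rf4_17 : rfCk (nat_lit 43) (nat_lit 5) (nat_lit 2) (nat_lit 1) (nat_lit 9) (nat_lit 0) (nat_lit 17) TL4 CL3 CL4 = true := by decide +kernel
def rf4_18 : rfCk (nat_lit 43) (nat_lit 5) (nat_lit 2) (nat_lit 1) (nat_lit 9) (nat_lit 0) (nat_lit 18) TL4 CL3 CL4 = true := by decide +kernel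
def de4_1 : deadCk (nat_lit 2) (nat_lit 1) C4_1 = true := by decide +kernel
def de4_2 : deadCk (nat_lit 2) (nat_lit 1) C4_2 = true := by decide +kernel
def de4_3 : deadCk (nat_lit 2) (nat_lit 1) C4_3 = true := by decide +kernel
def de4_4 : deadCk (nat_lit 2) (nat_lit 1) C4_4 = true := by decide +kernel
def de4_5 : deadCk (nat_lit 2) (nat_lit 1) C4_5 = true := by decide +kernel
def de4_6 : deadCk (nat_lit 2) (nat_lit 1) C4_6 = true := by decide +kernel
def de4_7 : deadCk (nat_lit 2) (nat_lit 1) C4_7 = true := by decide +kernel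
def de4_8 : deadCk (nat_lit 2) (nat_lit 1) C4_8 = true := by decide +kernel
def de4_9 : deadCk (nat_lit 2) (nat_lit 1) C4_9 = true := by decide +kernel
def de4_11 : deadCk (nat_lit 2) (nat_lit 1) C4_11 = true := by decide +kernel
def de4_12 : deadCk (nat_lit 2) (nat_lit 1) C4_12 = true := by decide +kernel
def de4_13 : deadCk (nat_lit 2) (nat_lit 1) C4_13 = true := by decide +kernel
def de4_14 : deadCk (nat_lit 2) (nat_lit 1) C4_14 = true := by decide +kernel
def de4_15 : deadCk (nat_lit 2) (nat_lit 1) C4_15 = true := by decide +kernel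
def de4_16 : deadCk (nat_lit 2) (nat_lit 1) C4_16 = true := by decide +kernel
def de4_17 : deadCk (nat_lit 2) (nat_lit 1) C4_17 = true := by decide +kernel
def de4_18 : deadCk (nat_lit 2) (nat_lit 1) C4_18 = true := by decide +kernel

end Pool.Agent.NNr.R15_1_4_5
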